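import Pool.Agent.W5h70.Klam4

/-!
# Klamkin's problem on perimeter-bisecting points of convex curves

If every line through a point `O` bisects the perimeter of the convex closed curve `C = ∂K`, then `C`
is centrally symmetric with respect to `O`.

Proof.  A separating line shows that `O` is an interior point of `K`; let `O = 0` and let `g` be the
gauge of `K`.  By the hypothesis opposite sectors with apex `O` cut off arcs of `C` of the same length.
Suppose that `C ≠ -C` and let `l > 1` be the maximum of `g(x) / g(-x)`, attained at `q ∈ C`; so `-l q`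
is in `C` and `K ⊆ -l K`.  The vector `τ`, orthogonal to `q` and with `‖τ‖ = ‖q‖`, is chosen such
that the right derivative `κ` of `t ↦ g(q + t τ)` at `0` is nonnegative.  The arc of `C` in the sector between `q` and
`q + s τ` has length at most `(1 + o(1)) √(1 + κ²) ‖q‖ s`.  The opposite arc starts in `-l q` and ends
in a point `-(q + s τ)/ψ` with `ψ = g(-(q + s τ)) ≥ g(q + s τ)/l ≥ (1 + κ s)/l`, `ψ → 1/l`, so it is at least
as long as the chord, which has length at least `(1 - o(1)) l √(1 + κ²) ‖q‖ s`, a contradiction.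
-/

set_option autoImplicit false

open MeasureTheory Set Filter Topology
open scoped RealInnerProductSpace

namespace Pool.Agent.Results.MP_7f2f72_gt.Klamkin

/-- The line through `O` with normal vector `u` bisects the perimeter of the closed curve `∂K`: the two
open half-planes bounded by the line contain parts of the curve of the same length. Length is the
one-dimensional Hausdorff measure. -/
def BisectsPerimeter (K : Set (EuclideanSpace ℝ (Fin 2))) (O u : EuclideanSpace ℝ (Fin 2)) : Prop :=
  μH[1] (frontier K ∩ {x | 0 < ⟪u, x - O⟫}) = μH[1] (frontier K ∩ {x | ⟪u, x - O⟫ < 0})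

open Pool.Agent.W5h70.Klam

theorem interior_of {K : Set (EuclideanSpace ℝ (Fin 2))} (hK : IsCompact K) (hc : Convex ℝ K)
    (hi : (interior K).Nonempty) {O : EuclideanSpace ℝ (Fin 2)}
    (h : ∀ u : EuclideanSpace ℝ (Fin 2), ‖u‖ = 1 → BisectsPerimeter K O u) : O ∈ interior K := by
  by_contra hO
  obtain ⟨f, hf⟩ := geometric_hahn_banach_open_point hc.interior isOpen_interior hO
  obtain ⟨x0, hx0⟩ := hi
  set w : E := (InnerProductSpace.toDual ℝ E).symm f with hw
  have hwf : ∀ x, ⟪w, x⟫ = f x := fun x => by
    rw [hw]; exact InnerProductSpace.toDual_symm_apply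
  have hw0 : w ≠ 0 := by
    intro hw0
    have := hf x0 hx0
    rw [← hwf, ← hwf, hw0, inner_zero_left, inner_zero_left] at this
    exact lt_irrefl _ this
  have hwn : 0 < ‖w‖ := norm_pos_iff.2 hw0
  set u : E := ‖w‖⁻¹ • w with hu
  have hun : ‖u‖ = 1 := by rw [hu, norm_smul, norm_inv, norm_norm, inv_mul_cancel₀ hwn.ne']
  have hneg : ∀ x ∈ interior K, ⟪u, x - O⟫ < 0 := by
    intro x hx
    rw [hu, real_inner_smul_left, inner_sub_right, hwf, hwf]
    exact mul_neg_of_pos_of_neg (by positivity) (by linarith [hf x hx])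
  have hle : ∀ x ∈ K, ⟪u, x - O⟫ ≤ 0 := by
    intro x hx
    have hx' : x ∈ closure (interior K) := by
      rw [hc.closure_interior_eq_closure_of_nonempty_interior ⟨x0, hx0⟩]
      exact subset_closure hx
    have hcl : IsClosed {x : E | ⟪u, x - O⟫ ≤ 0} := isClosed_le (by fun_prop) continuous_const
    exact closure_minimal (fun y hy => (hneg y hy).le) hcl hx'
  have hb := h u hun
  unfold BisectsPerimeter at hb
  have hemp : frontier K ∩ {x | 0 < ⟪u, x - O⟫} = ∅ := by
    ext x
    simp only [mem_inter_iff, mem_empty_iff_false, iff_false, not_and]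
    intro hx hx'
    have : x ∈ K := hK.isClosed.frontier_subset hx
    exact absurd (hle x this) (not_le.2 hx')
  rw [hemp, measure_empty] at hb
  -- but the projection of the other part contains an interval
  obtain ⟨r, hr, hball⟩ := Metric.isOpen_iff.1 isOpen_interior x0 hx0
  have hvn : ‖rot u‖ = 1 := by rw [norm_rot, hun]
  let F : E → ℝ := fun x => ⟪rot u, x⟫
  have hF : LipschitzWith 1 F := by
    refine LipschitzWith.of_dist_le_mul fun x y => ?_
    rw [Real.dist_eq, dist_eq_norm]
    show |⟪rot u, x⟫ - ⟪rot u, y⟫| ≤ _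
    rw [← inner_sub_right]
    refine (abs_real_inner_le_norm _ _).trans ?_
    rw [hvn]; simp
  have hsub : Ioo (F x0) (F x0 + r) ⊆ F '' (frontier K ∩ {x | ⟪u, x - O⟫ < 0}) := by
    intro t ht
    set p : E := x0 + (t - F x0) • rot u with hp
    have hpi : p ∈ interior K := by
      apply hball
      rw [Metric.mem_ball, dist_eq_norm, hp, add_sub_cancel_left, norm_smul, hvn, mul_one,
        Real.norm_eq_abs, abs_of_pos (by linarith [ht.1])]
      linarith [ht.2]
    have hur : ⟪rot u, u⟫ = 0 := inner_rot_self u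
    have hFp : ∀ a : ℝ, F (p - a • u) = t := by
      intro a
      show ⟪rot u, p - a • u⟫ = t
      rw [hp, inner_sub_right, inner_add_right, real_inner_smul_right, real_inner_smul_right,
        real_inner_self_eq_norm_sq, hvn, hur]
      show F x0 + (t - F x0) * 1 ^ 2 - a * 0 = t
      ring
    obtain ⟨R, hR⟩ := hK.isBounded.subset_closedBall p
    set b : ℝ := |R| + 1 with hbdef
    have hout : p - b • u ∉ K := by
      intro hmem
      have h1 := hR hmem
      rw [mem_closedBall_iff_norm] at h1
      have h2 : p - b • u - p = -(b • u) := by abel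
      rw [h2, norm_neg, norm_smul, hun, mul_one, Real.norm_of_nonneg (by positivity)] at h1
      linarith [le_abs_self R]
    have hseg : IsPreconnected (segment ℝ p (p - b • u)) := (convex_segment _ _).isPreconnected
    obtain ⟨y, hy, hyf⟩ : ∃ y ∈ segment ℝ p (p - b • u), y ∈ frontier K := by
      by_contra hcon
      push Not at hcon
      obtain ⟨z, -, hz1, hz2⟩ := hseg (interior K) Kᶜ isOpen_interior hK.isClosed.isOpen_compl
        (fun y hy => by
          by_cases hyK : y ∈ K
          · left
            by_contra hni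
            exact hcon y hy ⟨subset_closure hyK, hni⟩
          · exact Or.inr hyK)
        ⟨p, left_mem_segment _ _ _, hpi⟩ ⟨p - b • u, right_mem_segment _ _ _, hout⟩
      exact hz2 (interior_subset hz1)
    obtain ⟨c, ⟨hc0, hc1⟩, rfl⟩ := (segment_eq_image' ℝ p (p - b • u)).subset hy
    have ey : p + c • (p - b • u - p) = p - (c * b) • u := by module
    simp only at hyf
    rw [ey] at hyf
    refine ⟨p - (c * b) • u, ⟨hyf, ?_⟩, hFp _⟩
    show ⟪u, p - (c * b) • u - O⟫ < 0
    have e2 : p - (c * b) • u - O = (p - O) - (c * b) • u := by abel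
    rw [e2, inner_sub_right, real_inner_smul_right, real_inner_self_eq_norm_sq, hun]
    have h3 := hneg p hpi
    have h4 : 0 ≤ c * b * 1 ^ 2 := by positivity
    linarith
  have hpos : (0 : ENNReal) < μH[1] (frontier K ∩ {x | ⟪u, x - O⟫ < 0}) := by
    calc (0 : ENNReal) < volume (Ioo (F x0) (F x0 + r)) := by
          rw [Real.volume_Ioo]; simp [hr]
      _ = μH[1] (Ioo (F x0) (F x0 + r)) := by rw [hausdorffMeasure_real]
      _ ≤ μH[1] (F '' (frontier K ∩ {x | ⟪u, x - O⟫ < 0})) := measure_mono hsub
      _ ≤ ((1 : NNReal) : ENNReal) ^ (1:ℝ) * μH[1] (frontier K ∩ {x | ⟪u, x - O⟫ < 0}) :=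
          hF.hausdorffMeasure_image_le zero_le_one _
      _ = μH[1] (frontier K ∩ {x | ⟪u, x - O⟫ < 0}) := by simp
  rw [← hb] at hpos
  exact lt_irrefl _ hpos

/-- **Klamkin's problem.** Let `K` be a compact convex set of the plane with nonempty interior and let
`O` be a point. If every line through `O` bisects the perimeter of the convex closed curve `∂K`, then
`∂K` is centrally symmetric with respect to `O`. -/
theorem result (K : Set (EuclideanSpace ℝ (Fin 2))) (hK : IsCompact K) (hc : Convex ℝ K)
    (hi : (interior K).Nonempty) (O : EuclideanSpace ℝ (Fin 2))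
    (h : ∀ u : EuclideanSpace ℝ (Fin 2), ‖u‖ = 1 → BisectsPerimeter K O u) :
    (fun x => (2 : ℝ) • O - x) '' frontier K = frontier K := by
  have hO : O ∈ interior K := interior_of hK hc hi h
  let T : E ≃ᵢ E := IsometryEquiv.addRight O
  set K' : Set E := T ⁻¹' K with hK'
  have hfr : frontier K' = T ⁻¹' frontier K := (T.toHomeomorph.preimage_frontier K).symm
  have hc' : Convex ℝ K' := by
    have : K' = (fun x => x + O) ⁻¹' K := rfl
    rw [this]
    exact hc.translate_preimage_left O
  have hKc' : IsCompact K' := by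
    have h1 := T.toHomeomorph.isCompact_preimage (s := K)
    exact h1.2 hK
  have h0 : K' ∈ 𝓝 (0 : E) := by
    have hcont : Continuous T := T.continuous
    have h1 : K ∈ 𝓝 (T 0) := by
      have : T 0 = O := by simp [T]
      rw [this]; exact mem_interior_iff_mem_nhds.1 hO
    exact hcont.continuousAt.preimage_mem_nhds h1
  have hsym := core hc' hKc' h0 (fun u hu => by
    have hun : 0 < ‖u‖ := norm_pos_iff.2 hu
    have hb := h (‖u‖⁻¹ • u) (by rw [norm_smul, norm_inv, norm_norm, inv_mul_cancel₀ hun.ne'])
    unfold BisectsPerimeter at hb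
    rw [← T.hausdorffMeasure_preimage 1 (frontier K ∩ {x | 0 < ⟪‖u‖⁻¹ • u, x - O⟫}),
      ← T.hausdorffMeasure_preimage 1 (frontier K ∩ {x | ⟪‖u‖⁻¹ • u, x - O⟫ < 0})] at hb
    have e1 : T ⁻¹' (frontier K ∩ {x | 0 < ⟪‖u‖⁻¹ • u, x - O⟫}) = frontier K' ∩ {x | 0 < ⟪u, x⟫} := by
      rw [hfr, preimage_inter]
      congr 1
      ext x
      show 0 < ⟪‖u‖⁻¹ • u, (x + O) - O⟫ ↔ 0 < ⟪u, x⟫
      rw [add_sub_cancel_right, real_inner_smul_left]
      exact mul_pos_iff_of_pos_left (by positivity)
    have e2 : T ⁻¹' (frontier K ∩ {x | ⟪‖u‖⁻¹ • u, x - O⟫ < 0}) = frontier K' ∩ {x | ⟪u, x⟫ < 0} := by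
      rw [hfr, preimage_inter]
      congr 1
      ext x
      show ⟪‖u‖⁻¹ • u, (x + O) - O⟫ < 0 ↔ ⟪u, x⟫ < 0
      rw [add_sub_cancel_right, real_inner_smul_left]
      have hi0 : 0 < ‖u‖⁻¹ := by positivity
      constructor
      · intro h; by_contra hcon
        exact absurd h (not_lt.2 (mul_nonneg hi0.le (not_lt.1 hcon)))
      · intro h; exact mul_neg_of_pos_of_neg hi0 h
    rw [e1, e2] at hb
    exact hb)
  have key : ∀ x, x ∈ frontier K → (2 : ℝ) • O - x ∈ frontier K := by
    intro x hx
    have h1 : x - O ∈ frontier K' := by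
      rw [hfr]
      show (x - O) + O ∈ frontier K
      rw [sub_add_cancel]; exact hx
    have h2 : -(x - O) ∈ frontier K' := by
      rw [← gauge_eq_one_iff_mem_frontier hc' h0] at h1 ⊢
      rw [hsym]; exact h1
    rw [hfr] at h2
    have h3 : -(x - O) + O ∈ frontier K := h2
    have e : -(x - O) + O = (2 : ℝ) • O - x := by rw [two_smul]; abel
    rwa [e] at h3
  ext y
  constructor
  · rintro ⟨x, hx, rfl⟩
    exact key x hx
  · intro hy
    exact ⟨(2 : ℝ) • O - y, key y hy, by simp⟩

end Pool.Agent.Results.MP_7f2f72_gt.Klamkin
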